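import Mathlib
import Pool.Agent.X72.RGFW

/-! The patterns 1121 and 1211 are k-Wilf equivalent for every k. -/

namespace Pool.Agent.Results.MP_2348bc_co.AllKWilfPair

/-- restricted growth functions of length `n`: words `w_0 ... w_{n-1}` of positive integers with
`w_0 = 1` and `w_i ≤ 1 + max (w_0, ..., w_{i-1})` for `i ≥ 1`. -/
def IsRGF {n : ℕ} (w : Fin n → ℕ) : Prop :=
  ∀ i : Fin n, 1 ≤ w i ∧ (i.val = 0 → w i = 1) ∧ (i.val ≠ 0 → ∃ j : Fin n, j < i ∧ w i ≤ 1 + w j)

/-- the copies of `v` in `w`: the sets of positions (listed increasingly by the strictly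
increasing map `e`) where `w` is in the same relative order as `v`. -/
def copies {m n : ℕ} (v : Fin m → ℕ) (w : Fin n → ℕ) : Set (Fin m → Fin n) :=
  {e | StrictMono e ∧
    ∀ a b : Fin m, (w (e a) < w (e b) ↔ v a < v b) ∧ (w (e a) = w (e b) ↔ v a = v b)}

/-- `R_{n,k}(v)` : the RGFs of length `n` with exactly `k` copies of `v`. -/
def R (n k : ℕ) {m : ℕ} (v : Fin m → ℕ) : Set (Fin n → ℕ) :=
  {w | IsRGF w ∧ (copies v w).encard = k}

/-- `k`-Wilf equivalence. -/
def KWilf (k : ℕ) {m m' : ℕ} (v : Fin m → ℕ) (v' : Fin m' → ℕ) : Prop :=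
  ∀ n : ℕ, (R n k v).encard = (R n k v').encard

open Pool.Agent.X72.RGFW

/-! ### bridge to lists -/

def Cnt {m n : ℕ} (w : Fin n → ℕ) (P : (Fin m → ℕ) → Prop) : Set (Fin m → Fin n) :=
  {e | StrictMono e ∧ P (fun i => w (e i))}

lemma Cnt_fin {m n : ℕ} (w : Fin n → ℕ) (P : (Fin m → ℕ) → Prop) : (Cnt w P).Finite :=
  Set.toFinite _

lemma cnt_succ {m n : ℕ} (w : Fin (n + 1) → ℕ) (P : (Fin (m + 1) → ℕ) → Prop) :
    (Cnt w P).ncard = (Cnt (fun i => w i.succ) P).ncard +
      (Cnt (fun i => w i.succ) (fun s : Fin m → ℕ => P (Fin.cons (w 0) s))).ncard := by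
  have h1 : Cnt w P = (fun (e : Fin (m + 1) → Fin n) i => (e i).succ) '' Cnt (fun i => w i.succ) P ∪
      (fun (e : Fin m → Fin n) => (Fin.cons (0 : Fin (n + 1)) (fun i => (e i).succ) : Fin (m + 1) → Fin (n + 1))) ''
        Cnt (fun i => w i.succ) (fun s : Fin m → ℕ => P (Fin.cons (w 0) s)) := by
    ext e
    constructor
    · rintro ⟨he, hP⟩
      by_cases h0 : e 0 = 0
      · right
        have hne : ∀ i : Fin m, e i.succ ≠ 0 := by
          intro i
          have := he (Fin.succ_pos i)
          rw [h0] at this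
          exact this.ne'
        refine ⟨fun i => (e i.succ).pred (hne i), ⟨?_, ?_⟩, ?_⟩
        · intro i j hij
          rw [Fin.pred_lt_pred_iff]
          exact he (Fin.succ_lt_succ_iff.2 hij)
        · show P (Fin.cons (w 0) fun i => w ((e i.succ).pred (hne i)).succ)
          convert hP using 1
          funext i
          refine Fin.cases ?_ (fun i => ?_) i
          · simp [h0]
          · simp
        · funext i
          refine Fin.cases ?_ (fun i => ?_) i
          · simp [h0]
          · simp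
      · left
        have hne : ∀ i : Fin (m + 1), e i ≠ 0 := by
          intro i
          have h1 : e 0 ≤ e i := he.monotone (Fin.zero_le i)
          have h2 : 0 < e 0 := Fin.pos_iff_ne_zero.2 h0
          exact (lt_of_lt_of_le h2 h1).ne'
        refine ⟨fun i => (e i).pred (hne i), ⟨?_, ?_⟩, ?_⟩
        · intro i j hij
          rw [Fin.pred_lt_pred_iff]
          exact he hij
        · show P (fun i => w ((e i).pred (hne i)).succ)
          convert hP using 1
          funext i
          simp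
        · funext i
          simp
    · rintro (⟨e', ⟨he', hP'⟩, rfl⟩ | ⟨e', ⟨he', hP'⟩, rfl⟩)
      · refine ⟨?_, hP'⟩
        intro i j hij
        exact Fin.succ_lt_succ_iff.2 (he' hij)
      · refine ⟨?_, ?_⟩
        · intro i j hij
          induction i using Fin.cases with
          | zero =>
            induction j using Fin.cases with
            | zero => exact absurd hij (lt_irrefl _)
            | succ j => simp
          | succ i =>
            induction j using Fin.cases with
            | zero => exact absurd hij (by simp)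
            | succ j =>
              simp only [Fin.cons_succ]
              exact Fin.succ_lt_succ_iff.2 (he' (Fin.succ_lt_succ_iff.1 hij))
        · show P (fun i => w ((Fin.cons (0 : Fin (n + 1)) (fun i => (e' i).succ) : Fin (m + 1) → Fin (n + 1)) i))
          convert hP' using 1
          funext i
          refine Fin.cases ?_ (fun i => ?_) i
          · simp
          · simp
  rw [h1, Set.ncard_union_eq _ (Set.toFinite _) (Set.toFinite _), Set.ncard_image_of_injective,
    Set.ncard_image_of_injective]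
  · intro e e' h
    funext i
    have := congrFun h i.succ
    simpa using this
  · intro e e' h
    funext i
    have := congrFun h i
    simpa using this
  · rw [Set.disjoint_left]
    rintro _ ⟨e, _, rfl⟩ ⟨e', _, h⟩
    have := congrFun h 0
    simp only [Fin.cons_zero] at this
    exact absurd this.symm (Fin.succ_ne_zero _)

lemma cnt_nil {m : ℕ} (w : Fin 0 → ℕ) (P : (Fin (m + 1) → ℕ) → Prop) : (Cnt w P).ncard = 0 := by
  have : Cnt w P = ∅ := by
    ext e
    exact ⟨fun _ => (e 0).elim0, fun h => absurd h (Set.notMem_empty _)⟩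
  rw [this, Set.ncard_empty]

lemma cnt_zero {n : ℕ} (w : Fin n → ℕ) (P : (Fin 0 → ℕ) → Prop) [Decidable (P ![])] :
    (Cnt w P).ncard = if P ![] then 1 else 0 := by
  have hs : ∀ s : Fin 0 → ℕ, s = ![] := fun s => Subsingleton.elim _ _
  split_ifs with h
  · have : Cnt w P = {fun i => i.elim0} := by
      ext e
      refine ⟨fun _ => ?_, fun _ => ⟨fun i => i.elim0, ?_⟩⟩
      · exact Subsingleton.elim _ _
      · rw [hs (fun i => w (e i))]; exact h
    rw [this, Set.ncard_singleton]
  · have : Cnt w P = ∅ := by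
      ext e
      refine ⟨fun he => ?_, fun h => absurd h (Set.notMem_empty _)⟩
      have := he.2
      rw [hs (fun i => w (e i))] at this
      exact absurd this h
    rw [this, Set.ncard_empty]

lemma cnt_false {m n : ℕ} (w : Fin n → ℕ) (P : (Fin m → ℕ) → Prop) (h : ∀ s, ¬ P s) :
    (Cnt w P).ncard = 0 := by
  have : Cnt w P = ∅ := by
    ext e
    refine ⟨fun he => absurd he.2 (h _), fun h => absurd h (Set.notMem_empty _)⟩
  rw [this, Set.ncard_empty]

lemma cnt1 (x : ℕ) : ∀ {n : ℕ} (w : Fin n → ℕ) (P : (Fin 1 → ℕ) → Prop),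
    (∀ s, P s ↔ s 0 = x) → (Cnt w P).ncard = (List.ofFn w).count x := by
  classical
  intro n
  induction n with
  | zero => intro w P _; rw [cnt_nil]; simp
  | succ n ih =>
    intro w P hP
    rw [cnt_succ, ih _ P hP, cnt_zero, List.ofFn_succ, List.count_cons]
    congr 1
    simp only [hP, Fin.cons_zero, beq_iff_eq]

lemma cntB2 (x : ℕ) : ∀ {n : ℕ} (w : Fin n → ℕ) (P : (Fin 2 → ℕ) → Prop),
    (∀ s, P s ↔ (x < s 0 ∧ s 1 = x)) → (Cnt w P).ncard = B2 x (List.ofFn w) := by
  classical
  intro n
  induction n with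
  | zero => intro w P _; rw [cnt_nil]; simp [B2]
  | succ n ih =>
    intro w P hP
    rw [cnt_succ, ih _ P hP, List.ofFn_succ, B2]
    congr 1
    split_ifs with h
    · apply cnt1
      intro s
      rw [hP]
      simp only [Fin.cons_zero, h, true_and]
      exact Iff.rfl
    · apply cnt_false
      intro s
      rw [hP]
      simp [h]

lemma cntC2 (x : ℕ) : ∀ {n : ℕ} (w : Fin n → ℕ) (P : (Fin 2 → ℕ) → Prop),
    (∀ s, P s ↔ (s 0 = x ∧ s 1 = x)) → (Cnt w P).ncard = C2 x (List.ofFn w) := by
  classical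
  intro n
  induction n with
  | zero => intro w P _; rw [cnt_nil]; simp [C2]
  | succ n ih =>
    intro w P hP
    rw [cnt_succ, ih _ P hP, List.ofFn_succ, C2]
    congr 1
    split_ifs with h
    · apply cnt1
      intro s
      rw [hP]
      simp only [Fin.cons_zero, h, true_and]
      exact Iff.rfl
    · apply cnt_false
      intro s
      rw [hP]
      simp [h]

lemma cntB3 (x : ℕ) : ∀ {n : ℕ} (w : Fin n → ℕ) (P : (Fin 3 → ℕ) → Prop),
    (∀ s, P s ↔ (s 0 = x ∧ x < s 1 ∧ s 2 = x)) → (Cnt w P).ncard = B3 x (List.ofFn w) := by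
  classical
  intro n
  induction n with
  | zero => intro w P _; rw [cnt_nil]; simp [B3]
  | succ n ih =>
    intro w P hP
    rw [cnt_succ, ih _ P hP, List.ofFn_succ, B3]
    congr 1
    split_ifs with h
    · apply cntB2
      intro s
      rw [hP]
      simp only [Fin.cons_zero, h, true_and]
      exact Iff.rfl
    · apply cnt_false
      intro s
      rw [hP]
      simp [h]

lemma cntC3 (x : ℕ) : ∀ {n : ℕ} (w : Fin n → ℕ) (P : (Fin 3 → ℕ) → Prop),
    (∀ s, P s ↔ (x < s 0 ∧ s 1 = x ∧ s 2 = x)) → (Cnt w P).ncard = C3 x (List.ofFn w) := by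
  classical
  intro n
  induction n with
  | zero => intro w P _; rw [cnt_nil]; simp [C3]
  | succ n ih =>
    intro w P hP
    rw [cnt_succ, ih _ P hP, List.ofFn_succ, C3]
    congr 1
    split_ifs with h
    · apply cntC2
      intro s
      rw [hP]
      simp only [Fin.cons_zero, h, true_and]
      exact Iff.rfl
    · apply cnt_false
      intro s
      rw [hP]
      simp [h]

lemma cntA : ∀ {n : ℕ} (w : Fin n → ℕ) (P : (Fin 4 → ℕ) → Prop),
    (∀ s, P s ↔ (s 1 = s 0 ∧ s 0 < s 2 ∧ s 3 = s 0)) → (Cnt w P).ncard = A (List.ofFn w) := by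
  classical
  intro n
  induction n with
  | zero => intro w P _; rw [cnt_nil]; simp [A]
  | succ n ih =>
    intro w P hP
    rw [cnt_succ, ih _ P hP, List.ofFn_succ, A]
    congr 1
    apply cntB3
    intro s
    rw [hP]
    exact Iff.rfl

lemma cntD : ∀ {n : ℕ} (w : Fin n → ℕ) (P : (Fin 4 → ℕ) → Prop),
    (∀ s, P s ↔ (s 0 < s 1 ∧ s 2 = s 0 ∧ s 3 = s 0)) → (Cnt w P).ncard = D (List.ofFn w) := by
  classical
  intro n
  induction n with
  | zero => intro w P _; rw [cnt_nil]; simp [D]
  | succ n ih =>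
    intro w P hP
    rw [cnt_succ, ih _ P hP, List.ofFn_succ, D]
    congr 1
    apply cntC3
    intro s
    rw [hP]
    exact Iff.rfl

lemma copiesA {n : ℕ} (w : Fin n → ℕ) :
    (copies ![1, 1, 2, 1] w).encard = A (List.ofFn w) := by
  have h : copies ![1, 1, 2, 1] w = Cnt w (fun s => ∀ a b : Fin 4,
      (s a < s b ↔ ![1, 1, 2, 1] a < ![1, 1, 2, 1] b) ∧
      (s a = s b ↔ (![1, 1, 2, 1] : Fin 4 → ℕ) a = ![1, 1, 2, 1] b)) := rfl
  rw [h, ← cntA w _ ?_, Set.Finite.cast_ncard_eq (Set.toFinite _)]
  intro s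
  simp [Fin.forall_fin_succ]
  omega

lemma copiesD {n : ℕ} (w : Fin n → ℕ) :
    (copies ![1, 2, 1, 1] w).encard = D (List.ofFn w) := by
  have h : copies ![1, 2, 1, 1] w = Cnt w (fun s => ∀ a b : Fin 4,
      (s a < s b ↔ ![1, 2, 1, 1] a < ![1, 2, 1, 1] b) ∧
      (s a = s b ↔ (![1, 2, 1, 1] : Fin 4 → ℕ) a = ![1, 2, 1, 1] b)) := rfl
  rw [h, ← cntD w _ ?_, Set.Finite.cast_ncard_eq (Set.toFinite _)]
  intro s
  simp [Fin.forall_fin_succ]
  omega

lemma rgf_from : ∀ {n : ℕ} (w : Fin n → ℕ) (m : ℕ),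
    (∀ i : Fin n, 1 ≤ w i ∧ (w i ≤ m + 1 ∨ ∃ j : Fin n, j < i ∧ w i ≤ 1 + w j)) ↔
      RgfFrom m (List.ofFn w) := by
  intro n
  induction n with
  | zero => intro w m; simp [RgfFrom]
  | succ n ih =>
    intro w m
    rw [List.ofFn_succ, RgfFrom, ← ih, Fin.forall_fin_succ]
    have h0 : (∃ j : Fin (n + 1), j < 0 ∧ w 0 ≤ 1 + w j) ↔ False := by simp
    rw [h0, or_false, and_assoc]
    refine and_congr Iff.rfl (and_congr Iff.rfl (forall_congr' fun i => and_congr Iff.rfl ?_))
    rw [Fin.exists_fin_succ]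
    simp only [Fin.succ_pos, true_and, Fin.succ_lt_succ_iff]
    constructor
    · rintro (h | h | h)
      · left; omega
      · left; omega
      · right; exact h
    · rintro (h | h)
      · rcases le_total m (w 0) with h' | h'
        · rw [max_eq_right h'] at h; right; left; omega
        · rw [max_eq_left h'] at h; left; omega
      · right; right; exact h

lemma isRGF_iff {n : ℕ} (w : Fin n → ℕ) : IsRGF w ↔ RgfFrom 0 (List.ofFn w) := by
  rw [← rgf_from]
  refine forall_congr' fun i => and_congr_right fun h1 => ?_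
  constructor
  · rintro ⟨h2, h3⟩
    by_cases h : i.val = 0
    · left; have := h2 h; omega
    · right; exact h3 h
  · rintro h
    refine ⟨fun hi => ?_, fun hi => ?_⟩
    · rcases h with h | ⟨j, hj, _⟩
      · omega
      · exfalso; have : j.val < i.val := hj; omega
    · rcases h with h | h
      · refine ⟨⟨0, by omega⟩, ?_, by omega⟩
        show 0 < i.val
        omega
      · exact h

lemma card_lists (n k : ℕ) (F : List ℕ → ℕ) {m : ℕ} (v : Fin m → ℕ)
    (hF : ∀ w : Fin n → ℕ, (copies v w).encard = F (List.ofFn w)) :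
    (R n k v).encard = {w : List ℕ | w.length = n ∧ RgfFrom 0 w ∧ F w = k}.encard := by
  have h1 : {w : List ℕ | w.length = n ∧ RgfFrom 0 w ∧ F w = k} = List.ofFn '' (R n k v) := by
    ext l
    constructor
    · rintro ⟨h1, h2, h3⟩
      subst h1
      refine ⟨fun i => l[i], ⟨?_, ?_⟩, ?_⟩
      · rw [isRGF_iff]
        simpa using h2
      · rw [hF]
        have : List.ofFn (fun i : Fin l.length => l[i]) = l := by simp
        rw [this, h3]
      · simp
    · rintro ⟨w, ⟨h1, h2⟩, rfl⟩
      refine ⟨by simp, (isRGF_iff w).1 h1, ?_⟩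
      rw [hF] at h2
      exact_mod_cast h2
  rw [h1, Function.Injective.encard_image]
  exact List.ofFn_injective

/-- The two distinct patterns `1121` and `1211` are `k`-Wilf equivalent for every `k`. -/
theorem result :
    IsRGF ![1, 1, 2, 1] ∧ IsRGF ![1, 2, 1, 1] ∧ (![1, 1, 2, 1] : Fin 4 → ℕ) ≠ ![1, 2, 1, 1] ∧
      ∀ k : ℕ, KWilf k ![1, 1, 2, 1] ![1, 2, 1, 1] := by
  refine ⟨?_, ?_, ?_, ?_⟩
  · rw [isRGF_iff]; simp [RgfFrom]
  · rw [isRGF_iff]; simp [RgfFrom]
  · intro h
    have := congrFun h 1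
    simp at this
  · intro k n
    rw [card_lists n k A _ copiesA, card_lists n k D _ copiesD]
    obtain ⟨f, hf⟩ := lists_equiv n k
    rw [← hf.image_eq, Set.InjOn.encard_image hf.injOn]

end Pool.Agent.Results.MP_2348bc_co.AllKWilfPair
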